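import Mathlib

/-!
# Interface: high points of intersecting families of k-spaces (K1H42/HP)

`V` is an `n`-dimensional vector space over a finite field `F` with `q` elements.
Points are 1-dimensional subspaces.  `D q n k s` is (real) number of `k`-spaces through a fixed
`s`-space.
-/

namespace Pool.Agent.K1H42.HP

open Module Finset

/-- the `j`-dimensional subspaces of `V`, as a finite set -/
noncomputable def Gr (F V : Type) [Field F] [AddCommGroup V] [Module F V] [Finite V] (j : ℕ) :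
    Finset (Submodule F V) :=
  (Set.toFinite {W : Submodule F V | finrank F W = j}).toFinset

/-- `[m]_q = 1 + q + ... + q^(m-1)`, as a real number -/
noncomputable def br (q m : ℕ) : ℝ := ∑ i ∈ Finset.range m, (q : ℝ) ^ i

/-- `D q n k s`: the number of `k`-subspaces of an `n`-space over a fixed `s`-subspace -/
noncomputable def D (q n k s : ℕ) : ℝ :=
  ∏ i ∈ Finset.Ico s k, ((q : ℝ) ^ n - (q : ℝ) ^ i) / ((q : ℝ) ^ k - (q : ℝ) ^ i)

section
variable {F V : Type} [Field F] [AddCommGroup V] [Module F V] [Finite V]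

open Classical in
/-- the points of the subspace `A` -/
noncomputable def pts (A : Submodule F V) : Finset (Submodule F V) :=
  (Gr F V 1).filter (fun P => P ≤ A)

open Classical in
/-- the members of the family `𝓕` that contain the subspace `W` -/
noncomputable def above (𝓕 : Finset (Submodule F V)) (W : Submodule F V) :
    Finset (Submodule F V) := 𝓕.filter (fun A => W ≤ A)

open Classical in
/-- the members of the family `𝓕` that are contained in the subspace `H` -/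
noncomputable def below (𝓕 : Finset (Submodule F V)) (H : Submodule F V) :
    Finset (Submodule F V) := 𝓕.filter (fun A => A ≤ H)

open Classical in
/-- the members of the family `𝓕` that do not contain the subspace `W` -/
noncomputable def avoid (𝓕 : Finset (Submodule F V)) (W : Submodule F V) :
    Finset (Submodule F V) := 𝓕.filter (fun A => ¬ W ≤ A)

/-- degree of a subspace in the family, as a real number -/
noncomputable def dg (𝓕 : Finset (Submodule F V)) (W : Submodule F V) : ℝ :=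
  ((above 𝓕 W).card : ℝ)

/-- intersecting family -/
def IsInt (𝓕 : Finset (Submodule F V)) : Prop := ∀ A ∈ 𝓕, ∀ B ∈ 𝓕, A ⊓ B ≠ ⊥

open Classical in
/-- the high points -/
noncomputable def high (q n k : ℕ) (𝓕 : Finset (Submodule F V)) : Finset (Submodule F V) :=
  (Gr F V 1).filter (fun P => D q n k 2 < dg 𝓕 P)

open Classical in
/-- the exceptional points: high points on no heavy line (`d_L > [k] D_3`) -/
noncomputable def exc (q n k : ℕ) (𝓕 : Finset (Submodule F V)) : Finset (Submodule F V) :=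
  (high q n k 𝓕).filter (fun P => ∀ L ∈ Gr F V 2, P ≤ L → dg 𝓕 L ≤ br q k * D q n k 3)

@[simp] lemma mem_Gr {j : ℕ} {W : Submodule F V} : W ∈ Gr F V j ↔ finrank F W = j := by
  simp [Gr]

@[simp] lemma mem_pts {A P : Submodule F V} : P ∈ pts A ↔ finrank F P = 1 ∧ P ≤ A := by
  simp [pts]

@[simp] lemma mem_above {𝓕 : Finset (Submodule F V)} {W A : Submodule F V} :
    A ∈ above 𝓕 W ↔ A ∈ 𝓕 ∧ W ≤ A := by simp [above]

@[simp] lemma mem_below {𝓕 : Finset (Submodule F V)} {W A : Submodule F V} :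
    A ∈ below 𝓕 W ↔ A ∈ 𝓕 ∧ A ≤ W := by simp [below]

@[simp] lemma mem_avoid {𝓕 : Finset (Submodule F V)} {W A : Submodule F V} :
    A ∈ avoid 𝓕 W ↔ A ∈ 𝓕 ∧ ¬ W ≤ A := by simp [avoid]

@[simp] lemma mem_high {q n k : ℕ} {𝓕 : Finset (Submodule F V)} {P : Submodule F V} :
    P ∈ high q n k 𝓕 ↔ finrank F P = 1 ∧ D q n k 2 < dg 𝓕 P := by simp [high]

lemma mem_exc {q n k : ℕ} {𝓕 : Finset (Submodule F V)} {P : Submodule F V} :
    P ∈ exc q n k 𝓕 ↔ (finrank F P = 1 ∧ D q n k 2 < dg 𝓕 P) ∧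
      ∀ L : Submodule F V, finrank F L = 2 → P ≤ L → dg 𝓕 L ≤ br q k * D q n k 3 := by
  simp [exc]

end

/-- (COUNT) the number of `k`-subspaces over an `s`-subspace is `D q n k s` -/
def S_COUNT : Prop :=
  ∀ (F : Type) [Field F] [Fintype F] (V : Type) [AddCommGroup V] [Module F V] [Finite V]
    (q n k : ℕ), Fintype.card F = q → finrank F V = n → k ≤ n →
    ∀ S : Submodule F V, finrank F S ≤ k → dg (Gr F V k) S = D q n k (finrank F S)

/-- (PTS) the number of points of a subspace -/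
def S_PTS : Prop :=
  ∀ (F : Type) [Field F] [Fintype F] (V : Type) [AddCommGroup V] [Module F V] [Finite V]
    (q : ℕ), Fintype.card F = q → ∀ A : Submodule F V, ((pts A).card : ℝ) = br q (finrank F A)

/-- (TUP) tuple lemma -/
def S_TUP : Prop :=
  ∀ (F : Type) [Field F] [Fintype F] (V : Type) [AddCommGroup V] [Module F V] [Finite V]
    (q n k t : ℕ) (v : Submodule F V → ℝ) (m a : ℝ),
    Fintype.card F = q → finrank F V = n → k ≤ n → t + 1 ≤ k →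
    (∀ P, 0 ≤ v P) → (∀ P, v P ≤ m) → 0 < a → 2 * br q t * m ≤ a →
    ∀ 𝓑 ⊆ Gr F V k, (∀ A ∈ 𝓑, a ≤ ∑ P ∈ pts A, v P) →
      (a / 2) ^ t * ∑ A ∈ 𝓑, ∑ P ∈ pts A, v P
        ≤ (∑ P ∈ Gr F V 1, v P) ^ (t + 1) * D q n k (t + 1)

/-- (RED) reduction to exceptional points -/
def S_RED : Prop :=
  ∀ (F : Type) [Field F] [Fintype F] (V : Type) [AddCommGroup V] [Module F V] [Finite V]
    (q n k : ℕ), Fintype.card F = q → finrank F V = n → 2 * k + 1 ≤ n → 4 ≤ k →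
    ∀ 𝓕 ⊆ Gr F V k, IsInt 𝓕 → br q (k + 1) < ((high q n k 𝓕).card : ℝ) →
      q ^ k + 1 ≤ (exc q n k 𝓕).card

/-- (REGC) large `M` regime: at most one exceptional point -/
def S_REGC : Prop :=
  ∀ (F : Type) [Field F] [Fintype F] (V : Type) [AddCommGroup V] [Module F V] [Finite V]
    (q n k M : ℕ), Fintype.card F = q → finrank F V = n → n = 2 * k + M → 11 ≤ M →
    2 * k + 12 ≤ 9 * M → 11 ≤ k →
    ∀ 𝓕 ⊆ Gr F V k, IsInt 𝓕 → (exc q n k 𝓕).card ≤ 1

/-- (BIG) many high points force a large family -/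
def S_BIG : Prop :=
  ∀ (F : Type) [Field F] [Fintype F] (V : Type) [AddCommGroup V] [Module F V] [Finite V]
    (q n k M u : ℕ), Fintype.card F = q → finrank F V = n → n = 2 * k + M → 21 ≤ k →
    20 ≤ u → k + M + 3 ≤ 20 * (M + u) → u ≤ k →
    ∀ 𝓕 ⊆ Gr F V k, ∀ X ⊆ Gr F V 1, X.card = q ^ k → (∀ P ∈ X, D q n k 2 < dg 𝓕 P) →
      (q : ℝ) ^ k * D q n k 2 ≤ 4 * (q : ℝ) ^ u * (𝓕.card : ℝ)

/-- (FOURTH) fourth moment comparison between `k`-spaces and hyperplanes -/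
def S_FOURTH : Prop :=
  ∀ (F : Type) [Field F] [Fintype F] (V : Type) [AddCommGroup V] [Module F V] [Finite V]
    (q n k : ℕ) (c : Submodule F V → ℝ) (ζ G : ℝ),
    Fintype.card F = q → finrank F V = n → 2 * k + 1 ≤ n → 5 ≤ k →
    ∑ P ∈ Gr F V 1, c P = 0 → (∀ P ∈ Gr F V 1, |c P| ≤ ζ) →
    (∀ H ∈ Gr F V (n - 1), |∑ P ∈ pts H, c P| ≤ G) →
      ∑ A ∈ Gr F V k, (∑ P ∈ pts A, c P) ^ 4
        ≤ (q : ℝ) ^ 2 * D q n k 3 * G ^ 2 * (∑ P ∈ Gr F V 1, c P ^ 2)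
          + D q n k 1 * ζ ^ 2 * (∑ P ∈ Gr F V 1, c P ^ 2)
          + 6 * ((q : ℝ) + 1) ^ 2 * ζ ^ 2 * D q n k 2 * (∑ P ∈ Gr F V 1, |c P|) ^ 2

/-- (MOM) the moment inequality for an intersecting family with small degrees -/
def S_MOM : Prop :=
  ∀ (F : Type) [Field F] [Fintype F] (V : Type) [AddCommGroup V] [Module F V] [Finite V]
    (q n k : ℕ) (ζ G : ℝ),
    Fintype.card F = q → finrank F V = n → 2 * k + 1 ≤ n → 5 ≤ k →
    ∀ 𝓕 ⊆ Gr F V k, IsInt 𝓕 → 𝓕.Nonempty →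
    (∀ P ∈ Gr F V 1, dg 𝓕 P ≤ ζ * (𝓕.card : ℝ)) → (q : ℝ) ^ k ≤ ζ * (q : ℝ) ^ n →
    (∀ H ∈ Gr F V (n - 1), (q : ℝ) ^ (k - 1) * ((below 𝓕 H).card : ℝ) + (𝓕.card : ℝ)
      ≤ G * (𝓕.card : ℝ)) →
      (𝓕.card : ℝ) ≤ 8 * (q : ℝ) ^ 2 * D q n k 3 * G ^ 2 + 8 * D q n k 1 * ζ ^ 2
        + 384 * ((q : ℝ) + 1) ^ 2 * ζ ^ 2 * (q : ℝ) ^ (2 * k) * D q n k 2

/-- (EKR) weak Erdos-Ko-Rado theorem by partial spreads -/
def S_EKR : Prop :=
  ∀ (F : Type) [Field F] [Fintype F] (V : Type) [AddCommGroup V] [Module F V] [Finite V]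
    (q n k : ℕ), Fintype.card F = q → finrank F V = n → 2 * k ≤ n → 1 ≤ k →
    ∀ 𝓕 ⊆ Gr F V k, IsInt 𝓕 → (q : ℝ) ^ k * (𝓕.card : ℝ) ≤ ((Gr F V k).card : ℝ)

/-- (EKRH) weak Erdos-Ko-Rado theorem inside a hyperplane -/
def S_EKRH : Prop :=
  ∀ (F : Type) [Field F] [Fintype F] (V : Type) [AddCommGroup V] [Module F V] [Finite V]
    (q n k : ℕ), Fintype.card F = q → finrank F V = n → 2 * k + 1 ≤ n → 1 ≤ k →
    ∀ 𝓕 ⊆ Gr F V k, IsInt 𝓕 → ∀ H ∈ Gr F V (n - 1),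
      (q : ℝ) ^ (2 * k) * ((below 𝓕 H).card : ℝ) ≤ D q n k 0

/-- (CROSS) product bound for cross-intersecting families through / avoiding a point -/
def S_CROSS : Prop :=
  ∀ (F : Type) [Field F] [Fintype F] (V : Type) [AddCommGroup V] [Module F V] [Finite V]
    (q n k : ℕ), Fintype.card F = q → finrank F V = n → 2 * k + 1 ≤ n → 3 ≤ k →
    ∀ P ∈ Gr F V 1, ∀ 𝓐 ⊆ Gr F V k, ∀ 𝓖 ⊆ Gr F V k, (∀ A ∈ 𝓐, P ≤ A) → (∀ A ∈ 𝓖, ¬ P ≤ A) →
      (∀ A ∈ 𝓐, ∀ B ∈ 𝓖, A ⊓ B ≠ ⊥) →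
      (𝓐.card : ℝ) * (𝓖.card : ℝ) ≤ 4 * (q : ℝ) * D q n k 1 * D q n k 2

/-- (REGD) small `M` regime: fewer than `q^k + 1` exceptional points -/
def S_REGD : Prop :=
  ∀ (F : Type) [Field F] [Fintype F] (V : Type) [AddCommGroup V] [Module F V] [Finite V]
    (q n k M : ℕ), Fintype.card F = q → finrank F V = n → n = 2 * k + M → 1 ≤ M →
    4 * M ≤ k → 1000 ≤ k →
    ∀ 𝓕 ⊆ Gr F V k, IsInt 𝓕 → (exc q n k 𝓕).card ≤ q ^ k

/-- (HM) the Hilton-Milner family has `[k+1]` high points -/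
def S_HM : Prop :=
  ∀ (F : Type) [Field F] [Fintype F] (V : Type) [AddCommGroup V] [Module F V] [Finite V]
    (q n k : ℕ), Fintype.card F = q → finrank F V = n → 2 * k + 1 ≤ n → 4 ≤ k →
    ∃ 𝓕 ⊆ Gr F V k, IsInt 𝓕 ∧ br q (k + 1) ≤ ((high q n k 𝓕).card : ℝ)

/-- (HYP) for `n = 2k` the `k`-subspaces of a hyperplane have more than `[k+1]` high points -/
def S_HYP : Prop :=
  ∀ (F : Type) [Field F] [Fintype F] (V : Type) [AddCommGroup V] [Module F V] [Finite V]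
    (q k : ℕ), Fintype.card F = q → finrank F V = 2 * k → 4 ≤ k →
    ∃ 𝓕 ⊆ Gr F V k, IsInt 𝓕 ∧ br q (k + 1) < ((high q (2 * k) k 𝓕).card : ℝ)

/-- (NUM) elementary facts on `D` and `br` -/
def S_NUM : Prop :=
  ∀ (q n k : ℕ), 2 ≤ q → 1 ≤ k → k < n →
    (∀ s, 0 < D q n k s) ∧
    (∀ s, s < k → D q n k (s + 1) * ((q : ℝ) ^ n - (q : ℝ) ^ s)
        = D q n k s * ((q : ℝ) ^ k - (q : ℝ) ^ s)) ∧
    (∀ s t, s ≤ t → t ≤ k → (q : ℝ) ^ ((t - s) * (n - k)) * D q n k t ≤ D q n k s) ∧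
    (∀ s, s < k → D q n k s ≤ 2 * (q : ℝ) ^ (n - k) * D q n k (s + 1)) ∧
    (∀ m, br q m * ((q : ℝ) - 1) = (q : ℝ) ^ m - 1) ∧
    (∀ m, br q m ≤ (q : ℝ) ^ m) ∧
    (∀ m, br q (m + 1) = br q m + (q : ℝ) ^ m)

end Pool.Agent.K1H42.HP
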