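import Pool.Agent.K1H42.HP.Stm

/-!
# The small `M` regime (numerics): `S_REGD` from the pieces.
-/

namespace Pool.Agent.K1H42.HP

open Module Finset

lemma powb {Q : ℝ} (hQ : 2 ≤ Q) {c : ℝ} {e a b : ℕ} (hc : c ≤ 2 ^ e) (h : e + a ≤ b) :
    c * Q ^ a ≤ Q ^ b := by
  have hQ0 : (0:ℝ) ≤ Q := by linarith
  have h1 : (2:ℝ) ^ e ≤ Q ^ e := pow_le_pow_left₀ (by norm_num) hQ e
  calc c * Q ^ a ≤ Q ^ e * Q ^ a := by
        apply mul_le_mul_of_nonneg_right (hc.trans h1) (pow_nonneg hQ0 a)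
    _ = Q ^ (e + a) := (pow_add Q e a).symm
    _ ≤ Q ^ b := pow_le_pow_right₀ (by linarith) h

section
variable {F V : Type} [Field F] [AddCommGroup V] [Module F V] [Finite V]

lemma dc (𝓑 : Finset (Submodule F V)) (v : Submodule F V → ℝ) :
    ∑ A ∈ 𝓑, ∑ P ∈ pts A, v P = ∑ P ∈ Gr F V 1, v P * dg 𝓑 P := by
  classical
  have h1 : ∀ A ∈ 𝓑, ∑ P ∈ pts A, v P = ∑ P ∈ Gr F V 1, if P ≤ A then v P else 0 := by
    intro A _
    rw [← Finset.sum_filter]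
    congr 1
  rw [Finset.sum_congr rfl h1, Finset.sum_comm]
  apply Finset.sum_congr rfl
  intro P _
  rw [← Finset.sum_filter, Finset.sum_const, nsmul_eq_mul, mul_comm]
  congr 2

open Classical in
lemma dcX (𝓑 : Finset (Submodule F V)) {X : Finset (Submodule F V)} (hX : X ⊆ Gr F V 1) :
    ∑ A ∈ 𝓑, ∑ P ∈ pts A, (if P ∈ X then (1:ℝ) else 0) = ∑ P ∈ X, dg 𝓑 P := by
  rw [dc]
  have : ∀ P ∈ Gr F V 1, (if P ∈ X then (1:ℝ) else 0) * dg 𝓑 P = if P ∈ X then dg 𝓑 P else 0 := by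
    intro P _
    split_ifs <;> simp
  rw [Finset.sum_congr rfl this, ← Finset.sum_filter]
  congr 1
  ext P
  simp only [mem_filter]
  exact ⟨fun h => h.2, fun h => ⟨hX h, h⟩⟩

lemma dg_nonneg (𝓑 : Finset (Submodule F V)) (P : Submodule F V) : 0 ≤ dg 𝓑 P := by
  unfold dg; positivity

lemma dg_mono {𝓑 𝓒 : Finset (Submodule F V)} (h : 𝓑 ⊆ 𝓒) (P : Submodule F V) :
    dg 𝓑 P ≤ dg 𝓒 P := by
  unfold dg
  exact_mod_cast Finset.card_le_card (fun A hA => by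
    rw [mem_above] at hA ⊢; exact ⟨h hA.1, hA.2⟩)

lemma above_subset (𝓕 : Finset (Submodule F V)) (P : Submodule F V) : above 𝓕 P ⊆ 𝓕 :=
  fun A hA => (mem_above.1 hA).1

lemma avoid_subset (𝓕 : Finset (Submodule F V)) (P : Submodule F V) : avoid 𝓕 P ⊆ 𝓕 :=
  fun A hA => (mem_avoid.1 hA).1

/-- the members through `Q` are those through `Q ⊔ P` and those avoiding `P` -/
lemma dg_split (𝓕 : Finset (Submodule F V)) (P Q : Submodule F V) :
    dg 𝓕 Q = dg 𝓕 (Q ⊔ P) + dg (avoid 𝓕 P) Q := by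
  classical
  unfold dg
  rw [← Nat.cast_add, ← Finset.card_union_of_disjoint]
  · congr 2
    ext A
    simp only [mem_above, mem_union, mem_avoid, sup_le_iff]
    tauto
  · rw [Finset.disjoint_left]
    intro A hA hB
    simp only [mem_above, mem_avoid, sup_le_iff] at hA hB
    exact hB.1.2 hA.2.2

/-- two different points span a line -/
lemma sup_line {P Q : Submodule F V} (hP : finrank F P = 1) (hQ : finrank F Q = 1) (h : P ≠ Q) :
    finrank F (P ⊔ Q : Submodule F V) = 2 := by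
  have h1 := Submodule.finrank_sup_add_finrank_inf_eq P Q
  have h2 : finrank F (P ⊓ Q : Submodule F V) ≠ 1 := by
    intro h3
    have e1 : P ⊓ Q = P := Submodule.eq_of_le_of_finrank_eq inf_le_left (by rw [h3, hP])
    have e2 : P ⊓ Q = Q := Submodule.eq_of_le_of_finrank_eq inf_le_right (by rw [h3, hQ])
    exact h (e1.symm.trans e2)
  have h3 : finrank F (P ⊓ Q : Submodule F V) ≤ finrank F P :=
    Submodule.finrank_mono inf_le_left
  omega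

end

/-- real arithmetic of the final step -/
lemma regd_arith1 {Q D1 D2 D3 N : ℝ} {k M u s : ℕ} (hQ : 2 ≤ Q) (hD2 : 0 < D2)
    (h3 : Q ^ (k + M) * D3 ≤ D2) (h1 : D1 ≤ 2 * Q ^ (k + M) * D2)
    (hu : u = k / 20 + 1) (hs : s = (k + u) / 2 + 11) (hM : 4 * M ≤ k) (hk : 1000 ≤ k)
    (hN : Q ^ k * D2 ≤ 4 * Q ^ u * N)
    (hmom : N ≤ 8 * Q ^ 2 * D3 * (17 * Q ^ (2 * M + u)) ^ 2 + 8 * D1 * (1 / Q ^ s) ^ 2
        + 384 * (Q + 1) ^ 2 * (1 / Q ^ s) ^ 2 * Q ^ (2 * k) * D2) : False := by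
  have hQ0 : (0:ℝ) < Q := by linarith
  have pp : ∀ m : ℕ, 0 < Q ^ m := fun m => pow_pos hQ0 m
  -- multiply `hmom` by `Q ^ u`
  have hA : 8 * Q ^ 2 * D3 * (17 * Q ^ (2 * M + u)) ^ 2 * Q ^ u * 16 ≤ Q ^ k * D2 := by
    have e1 : 8 * Q ^ 2 * D3 * (17 * Q ^ (2 * M + u)) ^ 2 * Q ^ u * 16
        = (36992 * Q ^ (2 + (2 * M + u) * 2 + u)) * D3 := by
      rw [mul_pow, ← pow_mul]; ring
    have e2 : 36992 * Q ^ (2 + (2 * M + u) * 2 + u) ≤ Q ^ (k + (k + M)) :=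
      powb hQ (e := 16) (by norm_num) (by omega)
    have hD3 : D3 ≤ D2 / Q ^ (k + M) := by
      rw [le_div_iff₀ (pp _)]; linarith
    by_cases hneg : D3 ≤ 0
    · rw [e1]
      have : 36992 * Q ^ (2 + (2 * M + u) * 2 + u) * D3 ≤ 0 :=
        mul_nonpos_of_nonneg_of_nonpos (by have := pp (2 + (2 * M + u) * 2 + u); positivity) hneg
      have := mul_pos (pp k) hD2
      linarith
    · push Not at hneg
      rw [e1]
      calc (36992 * Q ^ (2 + (2 * M + u) * 2 + u)) * D3 ≤ Q ^ (k + (k + M)) * D3 :=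
            mul_le_mul_of_nonneg_right e2 hneg.le
        _ = Q ^ k * (Q ^ (k + M) * D3) := by rw [pow_add]; ring
        _ ≤ Q ^ k * D2 := mul_le_mul_of_nonneg_left h3 (pp k).le
  have hB : 8 * D1 * (1 / Q ^ s) ^ 2 * Q ^ u * 16 ≤ Q ^ k * D2 := by
    have e1 : 8 * D1 * (1 / Q ^ s) ^ 2 * Q ^ u * 16 = D1 * (128 * Q ^ u) / Q ^ (s * 2) := by
      rw [div_pow, one_pow, ← pow_mul]; ring
    rw [e1, div_le_iff₀ (pp _)]
    calc D1 * (128 * Q ^ u) ≤ (2 * Q ^ (k + M) * D2) * (128 * Q ^ u) :=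
          mul_le_mul_of_nonneg_right h1 (by have := pp u; positivity)
      _ = (256 * Q ^ (k + M + u)) * D2 := by rw [pow_add Q (k + M) u]; ring
      _ ≤ Q ^ (k + s * 2) * D2 := by
          apply mul_le_mul_of_nonneg_right _ hD2.le
          exact powb hQ (e := 8) (by norm_num) (by omega)
      _ = Q ^ k * D2 * Q ^ (s * 2) := by rw [pow_add]; ring
  have hC : 384 * (Q + 1) ^ 2 * (1 / Q ^ s) ^ 2 * Q ^ (2 * k) * D2 * Q ^ u * 16 ≤ Q ^ k * D2 := by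
    have e1 : 384 * (Q + 1) ^ 2 * (1 / Q ^ s) ^ 2 * Q ^ (2 * k) * D2 * Q ^ u * 16
        = (Q + 1) ^ 2 * (6144 * Q ^ (2 * k + u)) * D2 / Q ^ (s * 2) := by
      rw [div_pow, one_pow, ← pow_mul, pow_add Q (2 * k) u]; ring
    rw [e1, div_le_iff₀ (pp _)]
    have e2 : (Q + 1) ^ 2 ≤ Q ^ 4 := by
      have e3 : Q + 1 ≤ Q ^ 2 := by nlinarith
      calc (Q + 1) ^ 2 ≤ (Q ^ 2) ^ 2 := pow_le_pow_left₀ (by linarith) e3 2
        _ = Q ^ 4 := by rw [← pow_mul]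
    calc (Q + 1) ^ 2 * (6144 * Q ^ (2 * k + u)) * D2
        ≤ Q ^ 4 * (6144 * Q ^ (2 * k + u)) * D2 := by
          apply mul_le_mul_of_nonneg_right _ hD2.le
          exact mul_le_mul_of_nonneg_right e2 (by have := pp (2 * k + u); positivity)
      _ = (6144 * Q ^ (4 + (2 * k + u))) * D2 := by rw [pow_add Q 4 (2 * k + u)]; ring
      _ ≤ Q ^ (k + s * 2) * D2 := by
          apply mul_le_mul_of_nonneg_right _ hD2.le
          exact powb hQ (e := 13) (by norm_num) (by omega)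
      _ = Q ^ k * D2 * Q ^ (s * 2) := by rw [pow_add]; ring
  have hT := mul_pos (pp k) hD2
  have hm := mul_le_mul_of_nonneg_right hmom (pp u).le
  have : N * Q ^ u * 16 ≤ 3 * (Q ^ k * D2) := by
    calc N * Q ^ u * 16 ≤ ((8 * Q ^ 2 * D3 * (17 * Q ^ (2 * M + u)) ^ 2 + 8 * D1 * (1 / Q ^ s) ^ 2
        + 384 * (Q + 1) ^ 2 * (1 / Q ^ s) ^ 2 * Q ^ (2 * k) * D2) * Q ^ u) * 16 := by linarith
      _ ≤ 3 * (Q ^ k * D2) := by linarith
  nlinarith

theorem t_REGD (hC : S_COUNT) (hP : S_PTS) (hN : S_NUM) (hT : S_TUP) (hBIG : S_BIG)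
    (hMOM : S_MOM) (hEKRH : S_EKRH) (hCR : S_CROSS) : S_REGD := by
  intro F _ _ V _ _ _ q n k M hq hV hn hM1 hM4 hk 𝓕 h𝓕 hint
  classical
  by_contra hcon
  push Not at hcon
  have hq2 : 2 ≤ q := by rw [← hq]; exact Fintype.one_lt_card
  have hkn : k < n := by omega
  obtain ⟨nD, nR, nL, nU, nb1, nb2, nb3⟩ := hN q n k hq2 (by omega) hkn
  have hnk : n - k = k + M := by omega
  have hQ : (2:ℝ) ≤ (q:ℝ) := by exact_mod_cast hq2
  have hQ0 : (0:ℝ) < (q:ℝ) := by linarith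
  have pp : ∀ m : ℕ, 0 < (q:ℝ) ^ m := fun m => pow_pos hQ0 m
  have h3 : (q:ℝ) ^ (k + M) * D q n k 3 ≤ D q n k 2 := by
    have := nL 2 3 (by norm_num) (by omega)
    simpa [hnk] using this
  have h1 : D q n k 1 ≤ 2 * (q:ℝ) ^ (k + M) * D q n k 2 := by
    have := nU 1 (by omega)
    simpa [hnk] using this
  have h0 : D q n k 0 ≤ 2 * (q:ℝ) ^ (k + M) * D q n k 1 := by
    have := nU 0 (by omega)
    simpa [hnk] using this
  have h5 : (q:ℝ) ^ (4 * (k + M)) * D q n k 5 ≤ D q n k 1 := by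
    have := nL 1 5 (by norm_num) (by omega)
    simpa [hnk] using this
  have hD2 := nD 2
  have hD1 := nD 1
  obtain ⟨u, hu⟩ : ∃ u, u = k / 20 + 1 := ⟨_, rfl⟩
  obtain ⟨s, hs⟩ : ∃ s, s = (k + u) / 2 + 11 := ⟨_, rfl⟩
  have hexcGr : exc q n k 𝓕 ⊆ Gr F V 1 := fun P hP' => by
    rw [mem_Gr]; exact (mem_exc.1 hP').1.1
  have hexcHi : ∀ P ∈ exc q n k 𝓕, D q n k 2 < dg 𝓕 P := fun P hP' => (mem_exc.1 hP').1.2
  -- the family is large
  have hbig : (q:ℝ) ^ k * D q n k 2 ≤ 4 * (q:ℝ) ^ u * (𝓕.card : ℝ) := by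
    obtain ⟨X, hX, hXc⟩ := Finset.exists_subset_card_eq (s := exc q n k 𝓕) (n := q ^ k) (by omega)
    exact hBIG F V q n k M u hq hV hn (by omega) (by omega) (by omega) (by omega) 𝓕 h𝓕 X
      (hX.trans hexcGr) hXc (fun P hP' => hexcHi P (hX hP'))
  have hNpos : (0:ℝ) < (𝓕.card : ℝ) := by
    have := mul_pos (pp k) hD2
    have h2 : 0 < 4 * (q:ℝ) ^ u * (𝓕.card : ℝ) := lt_of_lt_of_le this hbig
    by_contra hh
    push Not at hh
    have := pp u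
    nlinarith
  have hne : 𝓕.Nonempty := by
    rw [← Finset.card_pos]; exact_mod_cast hNpos
  -- a point of large degree
  obtain ⟨P0, hP0, hP0d⟩ : ∃ P0 ∈ Gr F V 1, 1 / (q:ℝ) ^ s * (𝓕.card : ℝ) < dg 𝓕 P0 := by
    by_contra hno
    push Not at hno
    refine regd_arith1 hQ hD2 h3 h1 hu hs hM4 hk hbig
      (hMOM F V q n k (1 / (q:ℝ) ^ s) (17 * (q:ℝ) ^ (2 * M + u)) hq hV (by omega) (by omega)
        𝓕 h𝓕 hint hne hno ?_ ?_)
    · rw [div_mul_eq_mul_div, one_mul, le_div_iff₀ (pp _), ← pow_add]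
      exact pow_le_pow_right₀ (by linarith) (by omega)
    · intro H hH
      have e1 := hEKRH F V q n k hq hV (by omega) (by omega) 𝓕 h𝓕 hint H hH
      have e2 : (q:ℝ) ^ k * ((below 𝓕 H).card : ℝ) ≤ 16 * (q:ℝ) ^ (2 * M + u) * (𝓕.card : ℝ) := by
        have e3 : (q:ℝ) ^ (2 * k) * ((below 𝓕 H).card : ℝ)
            ≤ 4 * (q:ℝ) ^ (2 * (k + M)) * D q n k 2 := by
          calc (q:ℝ) ^ (2 * k) * ((below 𝓕 H).card : ℝ) ≤ D q n k 0 := e1
            _ ≤ 2 * (q:ℝ) ^ (k + M) * D q n k 1 := h0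
            _ ≤ 2 * (q:ℝ) ^ (k + M) * (2 * (q:ℝ) ^ (k + M) * D q n k 2) :=
                mul_le_mul_of_nonneg_left h1 (by have := pp (k + M); positivity)
            _ = 4 * (q:ℝ) ^ (2 * (k + M)) * D q n k 2 := by
                rw [two_mul (k + M), pow_add _ (k + M) (k + M)]; ring
        have e4 : (q:ℝ) ^ (2 * k) * ((q:ℝ) ^ k * ((below 𝓕 H).card : ℝ))
            ≤ (q:ℝ) ^ (2 * k) * (16 * (q:ℝ) ^ (2 * M + u) * (𝓕.card : ℝ)) := by
          calc (q:ℝ) ^ (2 * k) * ((q:ℝ) ^ k * ((below 𝓕 H).card : ℝ))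
              = (q:ℝ) ^ k * ((q:ℝ) ^ (2 * k) * ((below 𝓕 H).card : ℝ)) := by ring
            _ ≤ (q:ℝ) ^ k * (4 * (q:ℝ) ^ (2 * (k + M)) * D q n k 2) :=
                mul_le_mul_of_nonneg_left e3 (pp k).le
            _ = 4 * (q:ℝ) ^ (2 * (k + M)) * ((q:ℝ) ^ k * D q n k 2) := by ring
            _ ≤ 4 * (q:ℝ) ^ (2 * (k + M)) * (4 * (q:ℝ) ^ u * (𝓕.card : ℝ)) :=
                mul_le_mul_of_nonneg_left hbig (by have := pp (2 * (k + M)); positivity)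
            _ = (q:ℝ) ^ (2 * k) * (16 * (q:ℝ) ^ (2 * M + u) * (𝓕.card : ℝ)) := by
                have : 2 * (k + M) = 2 * k + 2 * M := by ring
                rw [this, pow_add _ (2 * k) (2 * M), pow_add _ (2 * M) u]; ring
        exact le_of_mul_le_mul_left e4 (pp _)
      have e5 : (q:ℝ) ^ (k - 1) ≤ (q:ℝ) ^ k := pow_le_pow_right₀ (by linarith) (by omega)
      have e6 : (1:ℝ) ≤ (q:ℝ) ^ (2 * M + u) := one_le_pow₀ (by linarith)
      have e7 : (q:ℝ) ^ (k - 1) * ((below 𝓕 H).card : ℝ)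
          ≤ (q:ℝ) ^ k * ((below 𝓕 H).card : ℝ) :=
        mul_le_mul_of_nonneg_right e5 (by positivity)
      nlinarith
  -- the members avoiding P0 are few
  have hcross := hCR F V q n k hq hV (by omega) (by omega) P0 hP0 (above 𝓕 P0)
    ((above_subset _ _).trans h𝓕) (avoid 𝓕 P0) ((avoid_subset _ _).trans h𝓕)
    (fun A hA => (mem_above.1 hA).2) (fun A hA => (mem_avoid.1 hA).2)
    (fun A hA B hB => hint A (mem_above.1 hA).1 B (mem_avoid.1 hB).1)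
  set g : ℝ := ((avoid 𝓕 P0).card : ℝ) with hg
  have hg0 : 0 ≤ g := by rw [hg]; positivity
  have hgle : g ≤ 32 * (q:ℝ) ^ (s + 1 + M + u) * D q n k 2 := by
    have hA : ((above 𝓕 P0).card : ℝ) = dg 𝓕 P0 := rfl
    rw [hA] at hcross
    have e1 : (𝓕.card : ℝ) ≤ (q:ℝ) ^ s * dg 𝓕 P0 := by
      have : 1 / (q:ℝ) ^ s * (𝓕.card : ℝ) ≤ dg 𝓕 P0 := hP0d.le
      rw [div_mul_eq_mul_div, one_mul, div_le_iff₀ (pp _)] at this
      linarith
    -- q^k D2 * g <= 4 q^u q^s dg * g <= 16 q^(u+s+1) D1 D2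
    have e2 : (q:ℝ) ^ k * D q n k 2 * g
        ≤ (q:ℝ) ^ k * D q n k 2 * (32 * (q:ℝ) ^ (s + 1 + M + u) * D q n k 2) := by
      calc (q:ℝ) ^ k * D q n k 2 * g ≤ 4 * (q:ℝ) ^ u * (𝓕.card : ℝ) * g :=
            mul_le_mul_of_nonneg_right hbig hg0
        _ ≤ 4 * (q:ℝ) ^ u * ((q:ℝ) ^ s * dg 𝓕 P0) * g := by
            apply mul_le_mul_of_nonneg_right _ hg0
            exact mul_le_mul_of_nonneg_left e1 (by have := pp u; positivity)
        _ = 4 * (q:ℝ) ^ (u + s) * (dg 𝓕 P0 * g) := by rw [pow_add]; ring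
        _ ≤ 4 * (q:ℝ) ^ (u + s) * (4 * (q : ℝ) * D q n k 1 * D q n k 2) :=
            mul_le_mul_of_nonneg_left hcross (by have := pp (u + s); positivity)
        _ = (16 * (q:ℝ) ^ (u + s + 1) * D q n k 2) * D q n k 1 := by rw [pow_succ]; ring
        _ ≤ (16 * (q:ℝ) ^ (u + s + 1) * D q n k 2) * (2 * (q:ℝ) ^ (k + M) * D q n k 2) :=
            mul_le_mul_of_nonneg_left h1 (by have := pp (u + s + 1); positivity)
        _ = (q:ℝ) ^ k * D q n k 2 * (32 * (q:ℝ) ^ (s + 1 + M + u) * D q n k 2) := by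
            rw [pow_add _ k M, show s + 1 + M + u = (u + s + 1) + M by ring,
              pow_add _ (u + s + 1) M]; ring
    exact le_of_mul_le_mul_left e2 (mul_pos (pp k) hD2)
  -- exceptional points different from P0
  obtain ⟨X, hX, hXc⟩ := Finset.exists_subset_card_eq (s := (exc q n k 𝓕).erase P0) (n := q ^ k)
    (by have := Finset.pred_card_le_card_erase (s := exc q n k 𝓕) (a := P0); omega)
  have hXe : ∀ P ∈ X, P ∈ exc q n k 𝓕 ∧ P ≠ P0 := fun P hP' => by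
    have := hX hP'
    rw [Finset.mem_erase] at this
    exact ⟨this.2, this.1⟩
  have hXG : X ⊆ Gr F V 1 := fun P hP' => hexcGr (hXe P hP').1
  have hdegX : ∀ P ∈ X, D q n k 2 / 2 ≤ dg (avoid 𝓕 P0) P := by
    intro P hPX
    obtain ⟨hPe, hPne⟩ := hXe P hPX
    have hPe' := mem_exc.1 hPe
    have hsplit := dg_split 𝓕 P0 P
    have hP01 : finrank F P0 = 1 := mem_Gr.1 hP0
    have hl := hPe'.2 (P ⊔ P0) (sup_line hPe'.1.1 hP01 hPne) le_sup_left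
    have hk3 : br q k * D q n k 3 ≤ D q n k 2 / 2 := by
      have e1 : br q k * D q n k 3 ≤ (q:ℝ) ^ k * D q n k 3 :=
        mul_le_mul_of_nonneg_right (nb2 k) (nD 3).le
      have e2 : 2 * ((q:ℝ) ^ k * D q n k 3) ≤ (q:ℝ) ^ (k + M) * D q n k 3 := by
        rw [← mul_assoc]
        apply mul_le_mul_of_nonneg_right _ (nD 3).le
        exact powb hQ (e := 1) (by norm_num) (by omega)
      linarith
    have := hPe'.1.2
    linarith
  -- the double count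
  obtain ⟨v, hv⟩ : ∃ v, v = k - s - u - M - 10 := ⟨_, rfl⟩
  set w : Submodule F V → ℝ := fun P => if P ∈ X then (1:ℝ) else 0 with hw
  have hsum : (q:ℝ) ^ k * (D q n k 2 / 2) ≤ ∑ A ∈ avoid 𝓕 P0, ∑ P ∈ pts A, w P := by
    rw [hw, dcX _ hXG]
    calc (q:ℝ) ^ k * (D q n k 2 / 2) = ∑ P ∈ X, D q n k 2 / 2 := by
          rw [Finset.sum_const, hXc, nsmul_eq_mul]; push_cast; ring
      _ ≤ ∑ P ∈ X, dg (avoid 𝓕 P0) P := Finset.sum_le_sum hdegX
  have hwsum : ∑ P ∈ Gr F V 1, w P = (q:ℝ) ^ k := by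
    rw [hw]
    simp only
    rw [← Finset.sum_filter, Finset.sum_const, nsmul_eq_mul, mul_one]
    have : (Gr F V 1).filter (fun P => P ∈ X) = X := by
      ext P
      simp only [mem_filter]
      exact ⟨fun h => h.2, fun h => ⟨hXG h, h⟩⟩
    rw [this, hXc]; push_cast; rfl
  set 𝓑 := (avoid 𝓕 P0).filter (fun A => 2 * (q:ℝ) ^ v ≤ ∑ P ∈ pts A, w P) with h𝓑
  have htup := hT F V q n k 4 w 1 (2 * (q:ℝ) ^ v) hq hV (by omega) (by omega)
    (fun P => by rw [hw]; simp only; split_ifs <;> norm_num)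
    (fun P => by rw [hw]; simp only; split_ifs <;> norm_num)
    (by have := pp v; positivity)
    (by
      have e1 := nb2 4
      have e2 : (q:ℝ) ^ 4 ≤ (q:ℝ) ^ v := pow_le_pow_right₀ (by linarith) (by omega)
      linarith)
    𝓑 (fun A hA => by
        rw [h𝓑, mem_filter] at hA
        exact h𝓕 (mem_avoid.1 hA.1).1)
    (fun A hA => by
        rw [h𝓑, mem_filter] at hA
        exact hA.2)
  have hlarge : ∑ A ∈ 𝓑, ∑ P ∈ pts A, w P ≤ (q:ℝ) ^ k * D q n k 2 / 8 := by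
    rw [hwsum] at htup
    have e0 : 2 * (q:ℝ) ^ v / 2 = (q:ℝ) ^ v := by ring
    rw [e0] at htup
    set Sb := ∑ A ∈ 𝓑, ∑ P ∈ pts A, w P with hSb
    -- (q^v)^4 Σ ≤ (q^k)^5 D5
    have e1 : ((q:ℝ) ^ v) ^ 4 * (q:ℝ) ^ (4 * (k + M)) * Sb
        ≤ ((q:ℝ) ^ k) ^ 5 * (2 * (q:ℝ) ^ (k + M) * D q n k 2) := by
      calc ((q:ℝ) ^ v) ^ 4 * (q:ℝ) ^ (4 * (k + M)) * Sb
          = (q:ℝ) ^ (4 * (k + M)) * (((q:ℝ) ^ v) ^ 4 * Sb) := by ring
        _ ≤ (q:ℝ) ^ (4 * (k + M)) * (((q:ℝ) ^ k) ^ (4 + 1) * D q n k (4 + 1)) :=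
            mul_le_mul_of_nonneg_left htup (pp _).le
        _ = ((q:ℝ) ^ k) ^ 5 * ((q:ℝ) ^ (4 * (k + M)) * D q n k 5) := by ring
        _ ≤ ((q:ℝ) ^ k) ^ 5 * D q n k 1 :=
            mul_le_mul_of_nonneg_left h5 (by have := pp k; positivity)
        _ ≤ ((q:ℝ) ^ k) ^ 5 * (2 * (q:ℝ) ^ (k + M) * D q n k 2) :=
            mul_le_mul_of_nonneg_left h1 (by have := pp k; positivity)
    have e2 : ((q:ℝ) ^ k) ^ 5 * (2 * (q:ℝ) ^ (k + M) * D q n k 2)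
        ≤ ((q:ℝ) ^ v) ^ 4 * (q:ℝ) ^ (4 * (k + M)) * ((q:ℝ) ^ k * D q n k 2 / 8) := by
      have e3 : 16 * (q:ℝ) ^ (k * 5 + (k + M)) ≤ (q:ℝ) ^ (v * 4 + 4 * (k + M) + k) :=
        powb hQ (e := 4) (by norm_num) (by omega)
      have e4 : ((q:ℝ) ^ k) ^ 5 * (2 * (q:ℝ) ^ (k + M) * D q n k 2)
          = (16 * (q:ℝ) ^ (k * 5 + (k + M))) * (D q n k 2 / 8) := by
        rw [← pow_mul, pow_add _ (k * 5) (k + M)]; ring
      have e5 : ((q:ℝ) ^ v) ^ 4 * (q:ℝ) ^ (4 * (k + M)) * ((q:ℝ) ^ k * D q n k 2 / 8)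
          = (q:ℝ) ^ (v * 4 + 4 * (k + M) + k) * (D q n k 2 / 8) := by
        rw [← pow_mul, pow_add _ (v * 4 + 4 * (k + M)) k, pow_add _ (v * 4) (4 * (k + M))]; ring
      rw [e4, e5]
      exact mul_le_mul_of_nonneg_right e3 (by positivity)
    exact le_of_mul_le_mul_left (e1.trans e2) (by have := pp v; have := pp (4 * (k + M)); positivity)
  have hsmall : ∑ A ∈ (avoid 𝓕 P0).filter (fun A => ¬ 2 * (q:ℝ) ^ v ≤ ∑ P ∈ pts A, w P),
      ∑ P ∈ pts A, w P ≤ (q:ℝ) ^ k * D q n k 2 / 8 := by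
    calc ∑ A ∈ (avoid 𝓕 P0).filter (fun A => ¬ 2 * (q:ℝ) ^ v ≤ ∑ P ∈ pts A, w P),
          ∑ P ∈ pts A, w P
        ≤ ∑ A ∈ (avoid 𝓕 P0).filter (fun A => ¬ 2 * (q:ℝ) ^ v ≤ ∑ P ∈ pts A, w P),
          2 * (q:ℝ) ^ v := by
          apply Finset.sum_le_sum
          intro A hA
          rw [mem_filter] at hA
          push Not at hA
          exact hA.2.le
      _ ≤ g * (2 * (q:ℝ) ^ v) := by
          rw [Finset.sum_const, nsmul_eq_mul]
          apply mul_le_mul_of_nonneg_right _ (by have := pp v; positivity)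
          rw [hg]
          exact_mod_cast Finset.card_filter_le _ _
      _ ≤ (32 * (q:ℝ) ^ (s + 1 + M + u) * D q n k 2) * (2 * (q:ℝ) ^ v) :=
          mul_le_mul_of_nonneg_right hgle (by have := pp v; positivity)
      _ = (512 * (q:ℝ) ^ (s + 1 + M + u + v)) * (D q n k 2 / 8) := by
          rw [pow_add _ (s + 1 + M + u) v]; ring
      _ ≤ (q:ℝ) ^ k * (D q n k 2 / 8) := by
          apply mul_le_mul_of_nonneg_right _ (by positivity)
          exact powb hQ (e := 9) (by norm_num) (by omega)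
      _ = (q:ℝ) ^ k * D q n k 2 / 8 := by ring
  have hsplit := Finset.sum_filter_add_sum_filter_not (avoid 𝓕 P0)
    (fun A => 2 * (q:ℝ) ^ v ≤ ∑ P ∈ pts A, w P) (fun A => ∑ P ∈ pts A, w P)
  have hpos := mul_pos (pp k) hD2
  rw [← h𝓑] at hsplit
  linarith

end Pool.Agent.K1H42.HP
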