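import Pool.Agent.K1H42.HP.Asm
import Pool.Agent.K1H42.HP.Regd
import Pool.Agent.K1H98.HP.Count
import Pool.Agent.K1H24.HP.Hm
import Pool.Agent.K1H26.HP.Ekr
import Pool.Agent.K1H61.HP.Tup
import Pool.Agent.K1H61.HP.Hyp
import Pool.Agent.K1H68.HP.Fourth
import Pool.Agent.K1H87.HP.Cross
import Pool.Agent.K1H6.HP.Big
import Pool.Agent.K1H6.HP.Regc
import Pool.Agent.K1H7.HP.Mom

/-!
# All pieces together
-/

namespace Pool.Agent.K1H42.HP

open Module Finset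

theorem a_COUNT : S_COUNT := Pool.Agent.K1H98.HP.t_COUNT
theorem a_PTS : S_PTS := Pool.Agent.K1H98.HP.t_PTS
theorem a_TUP : S_TUP := Pool.Agent.K1H61.HP.t_TUP a_COUNT a_PTS
theorem a_RED : S_RED := Pool.Agent.K1H24.HP.t_RED a_COUNT a_PTS t_NUM
theorem a_HM : S_HM := Pool.Agent.K1H24.HP.t_HM a_COUNT a_PTS t_NUM
theorem a_HYP : S_HYP := Pool.Agent.K1H61.HP.t_HYP a_COUNT a_PTS
theorem a_EKRH : S_EKRH := Pool.Agent.K1H26.HP.t_EKRH a_COUNT
theorem a_FOURTH : S_FOURTH := Pool.Agent.K1H68.HP.t_FOURTH a_COUNT a_PTS t_NUM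
theorem a_CROSS : S_CROSS := Pool.Agent.K1H87.HP.t_CROSS a_COUNT a_PTS t_NUM
theorem a_BIG : S_BIG := Pool.Agent.K1H6.HP.t_BIG t_NUM a_TUP
theorem a_REGC : S_REGC := Pool.Agent.K1H6.HP.t_REGC a_PTS t_NUM a_TUP
theorem a_MOM : S_MOM := Pool.Agent.K1H7.HP.t_MOM a_PTS t_NUM a_FOURTH
theorem a_REGD : S_REGD := t_REGD a_COUNT a_PTS t_NUM a_TUP a_BIG a_MOM a_EKRH a_CROSS

/-- at most `[k + 1]` high points -/
theorem upper_all (F : Type) [Field F] [Finite F] (n k : ℕ) (hk : 1000 ≤ k) (hn : 2 * k + 1 ≤ n)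
    (V : Type) [AddCommGroup V] [Module F V] (hV : finrank F V = n)
    (𝓕 : Set (Submodule F V)) (h𝓕 : Final.IsIntersecting k 𝓕) :
    (Final.highPoints n k 𝓕).ncard ≤ Final.num F (k + 1) :=
  final_upper a_COUNT a_RED a_REGC a_REGD F n k hk hn V hV 𝓕 h𝓕

/-- the Hilton-Milner example -/
theorem lower_all (F : Type) [Field F] [Finite F] (n k : ℕ) (hk : 4 ≤ k) (hn : 2 * k + 1 ≤ n)
    (V : Type) [AddCommGroup V] [Module F V] (hV : finrank F V = n) :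
    ∃ 𝓕 : Set (Submodule F V), Final.IsIntersecting k 𝓕 ∧
      Final.num F (k + 1) ≤ (Final.highPoints n k 𝓕).ncard :=
  final_lower a_COUNT a_HM F n k hk hn V hV

/-- the example for `n = 2k` -/
theorem lower_2k (F : Type) [Field F] [Finite F] (k : ℕ) (hk : 4 ≤ k)
    (V : Type) [AddCommGroup V] [Module F V] (hV : finrank F V = 2 * k) :
    ∃ 𝓕 : Set (Submodule F V), Final.IsIntersecting k 𝓕 ∧
      Final.num F (k + 1) < (Final.highPoints (2 * k) k 𝓕).ncard :=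
  final_2k a_COUNT a_HYP F k hk V hV

end Pool.Agent.K1H42.HP
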