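import Mathlib

/-!
# Definitions for the final statements on high points of intersecting families of subspaces
-/

namespace Pool.Agent.K1H42.HP.Final

/-- The Gaussian binomial coefficient `binom(a, b)_q`: the number of `b`-dimensional subspaces of
an `a`-dimensional space over the field `F` with `q` elements. -/
noncomputable def gauss (F : Type) [Field F] (a b : ℕ) : ℕ :=
  Nat.card {W : Submodule F (Fin a → F) // Module.finrank F W = b}

/-- `[m]_q = (q ^ m - 1) / (q - 1)`, where `q` is the number of elements of `F`. -/
noncomputable def num (F : Type) [Field F] (m : ℕ) : ℕ :=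
  (Nat.card F ^ m - 1) / (Nat.card F - 1)

section
variable {F V : Type} [Field F] [AddCommGroup V] [Module F V]

/-- `𝓕` is an intersecting family of `k`-dimensional subspaces of `V`. -/
def IsIntersecting (k : ℕ) (𝓕 : Set (Submodule F V)) : Prop :=
  (∀ A ∈ 𝓕, Module.finrank F A = k) ∧ ∀ A ∈ 𝓕, ∀ B ∈ 𝓕, A ⊓ B ≠ ⊥

/-- The degree of the subspace `P`: the number of members of `𝓕` containing `P`. -/
noncomputable def degree (𝓕 : Set (Submodule F V)) (P : Submodule F V) : ℕ :=
  {A : Submodule F V | A ∈ 𝓕 ∧ P ≤ A}.ncard

/-- The high points: the 1-dimensional subspaces `P` whose degree exceeds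
`binom(n - 2, k - 2)_q`. -/
def highPoints (n k : ℕ) (𝓕 : Set (Submodule F V)) : Set (Submodule F V) :=
  {P : Submodule F V | Module.finrank F P = 1 ∧ gauss F (n - 2) (k - 2) < degree 𝓕 P}

end

end Pool.Agent.K1H42.HP.Final
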