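import Pool.Agent.K1H42.HP.Stm

/-!
# Elementary facts on `D` and `br`.
-/

namespace Pool.Agent.K1H42.HP

open Module Finset

theorem t_NUM : S_NUM := by
  intro q n k hq hk hkn
  have hQ : (2:ℝ) ≤ (q:ℝ) := by exact_mod_cast hq
  have hQ0 : (0:ℝ) < (q:ℝ) := by linarith
  have hQ1 : (1:ℝ) < (q:ℝ) := by linarith
  have pp : ∀ m : ℕ, 0 < (q:ℝ) ^ m := fun m => pow_pos hQ0 m
  have hlt : ∀ i m : ℕ, i < m → (q:ℝ) ^ i < (q:ℝ) ^ m := fun i m h => pow_lt_pow_right₀ hQ1 h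
  have hfac : ∀ i, i < k → 0 < ((q:ℝ) ^ n - (q:ℝ) ^ i) / ((q:ℝ) ^ k - (q:ℝ) ^ i) := by
    intro i hi
    have h1 := hlt i k hi
    have h2 := hlt i n (by omega)
    exact div_pos (by linarith) (by linarith)
  have hpos : ∀ s, 0 < D q n k s := by
    intro s
    unfold D
    apply Finset.prod_pos
    intro i hi
    exact hfac i (Finset.mem_Ico.1 hi).2
  have hstep : ∀ s, s < k → D q n k s
      = ((q:ℝ) ^ n - (q:ℝ) ^ s) / ((q:ℝ) ^ k - (q:ℝ) ^ s) * D q n k (s + 1) := by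
    intro s hs
    unfold D
    rw [Finset.prod_eq_prod_Ico_succ_bot hs]
  have hone : ∀ s, s < k → (q:ℝ) ^ (n - k) * D q n k (s + 1) ≤ D q n k s := by
    intro s hs
    rw [hstep s hs]
    apply mul_le_mul_of_nonneg_right _ (hpos _).le
    have h1 := hlt s k hs
    rw [le_div_iff₀ (by linarith)]
    have e1 : (q:ℝ) ^ (n - k) * (q:ℝ) ^ k = (q:ℝ) ^ n := by
      rw [← pow_add]; congr 1; omega
    have e2 : (q:ℝ) ^ s ≤ (q:ℝ) ^ (n - k) * (q:ℝ) ^ s := by
      have : (1:ℝ) ≤ (q:ℝ) ^ (n - k) := one_le_pow₀ hQ1.le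
      nlinarith [pp s]
    nlinarith
  refine ⟨hpos, ?_, ?_, ?_, ?_, ?_, ?_⟩
  · intro s hs
    rw [hstep s hs]
    have h1 := hlt s k hs
    have h2 : (q:ℝ) ^ k - (q:ℝ) ^ s ≠ 0 := by linarith
    field_simp
  · intro s t hst
    induction t, hst using Nat.le_induction with
    | base => intro _; simp
    | succ t hst ih =>
      intro ht
      have h1 := ih (by omega)
      have h2 := hone t (by omega)
      have e : (t + 1 - s) * (n - k) = (t - s) * (n - k) + (n - k) := by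
        rw [show t + 1 - s = (t - s) + 1 by omega]; ring
      rw [e, pow_add]
      calc (q:ℝ) ^ ((t - s) * (n - k)) * (q:ℝ) ^ (n - k) * D q n k (t + 1)
          = (q:ℝ) ^ ((t - s) * (n - k)) * ((q:ℝ) ^ (n - k) * D q n k (t + 1)) := by ring
        _ ≤ (q:ℝ) ^ ((t - s) * (n - k)) * D q n k t :=
            mul_le_mul_of_nonneg_left h2 (pp _).le
        _ ≤ D q n k s := h1
  · intro s hs
    rw [hstep s hs]
    apply mul_le_mul_of_nonneg_right _ (hpos _).le
    have h1 := hlt s k hs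
    rw [div_le_iff₀ (by linarith)]
    have e1 : (q:ℝ) ^ (n - k) * (q:ℝ) ^ k = (q:ℝ) ^ n := by
      rw [← pow_add]; congr 1; omega
    have e2 : 2 * ((q:ℝ) ^ (n - k) * (q:ℝ) ^ s) ≤ (q:ℝ) ^ n := by
      rw [← pow_add]
      calc 2 * (q:ℝ) ^ (n - k + s) ≤ (q:ℝ) * (q:ℝ) ^ (n - k + s) :=
            mul_le_mul_of_nonneg_right hQ (pp _).le
        _ = (q:ℝ) ^ (n - k + s + 1) := by rw [pow_succ]; ring
        _ ≤ (q:ℝ) ^ n := pow_le_pow_right₀ hQ1.le (by omega)
    have e3 := pp s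
    nlinarith
  · intro m
    unfold br
    exact geom_sum_mul (q:ℝ) m
  · intro m
    have h1 : br q m * ((q:ℝ) - 1) = (q:ℝ) ^ m - 1 := by unfold br; exact geom_sum_mul (q:ℝ) m
    have h2 : 0 ≤ br q m := by
      unfold br; exact Finset.sum_nonneg (fun i _ => (pp i).le)
    nlinarith
  · intro m
    unfold br
    rw [Finset.sum_range_succ]

end Pool.Agent.K1H42.HP
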