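import Pool.Agent.K1H42.HP.Stm
import Pool.Agent.K1H42.HP.Num
import Pool.Agent.K1H42.HP.Defs

/-!
# Assembly
-/

namespace Pool.Agent.K1H42.HP

open Module Finset

/-- upper bound in the internal notation -/
theorem upper (hRED : S_RED) (hC : S_REGC) (hD : S_REGD)
    (F : Type) [Field F] [Fintype F] (V : Type) [AddCommGroup V] [Module F V] [Finite V]
    (q n k : ℕ) (hq : Fintype.card F = q) (hV : finrank F V = n) (hn : 2 * k + 1 ≤ n)
    (hk : 1000 ≤ k) (𝓕 : Finset (Submodule F V)) (h𝓕 : 𝓕 ⊆ Gr F V k) (hint : IsInt 𝓕) :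
    ((high q n k 𝓕).card : ℝ) ≤ br q (k + 1) := by
  by_contra hcon
  push Not at hcon
  have h1 := hRED F V q n k hq hV hn (by omega) 𝓕 h𝓕 hint hcon
  have hq2 : 2 ≤ q := by rw [← hq]; exact Fintype.one_lt_card
  have hqk : 1 ≤ q ^ k := Nat.one_le_pow _ _ (by omega)
  by_cases hM : 4 * (n - 2 * k) ≤ k
  · have := hD F V q n k (n - 2 * k) hq hV (by omega) (by omega) hM hk 𝓕 h𝓕 hint
    omega
  · have := hC F V q n k (n - 2 * k) hq hV (by omega) (by omega) (by omega) (by omega) 𝓕 h𝓕 hint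
    omega

lemma card_Gr_eq (F V : Type) [Field F] [AddCommGroup V] [Module F V] [Finite V] (j : ℕ) :
    (Gr F V j).card = Nat.card {W : Submodule F V // finrank F W = j} := by
  unfold Gr
  rw [← Set.ncard_eq_toFinset_card]
  rfl

/-- the Gaussian binomial coefficient is `D q n k 2` -/
theorem gauss_eq (hC : S_COUNT) (F : Type) [Field F] [Fintype F] (q n k : ℕ)
    (hq : Fintype.card F = q) (hk : 2 ≤ k) (hkn : k ≤ n) :
    (Final.gauss F (n - 2) (k - 2) : ℝ) = D q n k 2 := by
  have h1 := hC F (Fin (n - 2) → F) q (n - 2) (k - 2) hq (by simp) (by omega) ⊥ (by simp)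
  have h2 : dg (Gr F (Fin (n - 2) → F) (k - 2)) (⊥ : Submodule F (Fin (n - 2) → F))
      = (Final.gauss F (n - 2) (k - 2) : ℝ) := by
    unfold dg above Final.gauss
    rw [← card_Gr_eq]
    simp
  rw [← h2, h1, finrank_bot]
  have hq2 : 2 ≤ q := by rw [← hq]; exact Fintype.one_lt_card
  have hQ0 : (0:ℝ) < (q:ℝ) := by positivity
  unfold D
  rw [Finset.prod_Ico_eq_prod_range, Finset.prod_Ico_eq_prod_range]
  simp only [Nat.sub_zero, zero_add]
  apply Finset.prod_congr rfl
  intro i hi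
  obtain ⟨n', rfl⟩ : ∃ n', n = n' + 2 := ⟨n - 2, by omega⟩
  obtain ⟨k', rfl⟩ : ∃ k', k = k' + 2 := ⟨k - 2, by omega⟩
  simp only [Nat.add_sub_cancel]
  have e1 : (q:ℝ) ^ (n' + 2) - (q:ℝ) ^ (2 + i) = (q:ℝ) ^ 2 * ((q:ℝ) ^ n' - (q:ℝ) ^ i) := by
    rw [pow_add, pow_add]; ring
  have e2 : (q:ℝ) ^ (k' + 2) - (q:ℝ) ^ (2 + i) = (q:ℝ) ^ 2 * ((q:ℝ) ^ k' - (q:ℝ) ^ i) := by
    rw [pow_add, pow_add]; ring
  rw [e1, e2, mul_div_mul_left _ _ (by positivity)]

section
variable {F V : Type} [Field F] [AddCommGroup V] [Module F V] [Finite V]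

/-- the high points in the two notations -/
lemma highPoints_eq (hC : S_COUNT) [Fintype F] (q n k : ℕ)
    (hq : Fintype.card F = q) (hk : 2 ≤ k) (hkn : k ≤ n) (𝓕 : Finset (Submodule F V)) :
    Final.highPoints n k (𝓕 : Set (Submodule F V)) = (high q n k 𝓕 : Set (Submodule F V)) := by
  ext P
  unfold Final.highPoints
  simp only [Set.mem_setOf_eq, Finset.mem_coe, mem_high]
  have h1 : Final.degree (𝓕 : Set (Submodule F V)) P = (above 𝓕 P).card := by
    unfold Final.degree
    rw [← Set.ncard_coe_finset]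
    congr 1
    ext A
    simp
  rw [h1, ← gauss_eq hC F q n k hq hk hkn]
  unfold dg
  rw [Nat.cast_lt]

lemma ncard_highPoints (hC : S_COUNT) [Fintype F] (q n k : ℕ)
    (hq : Fintype.card F = q) (hk : 2 ≤ k) (hkn : k ≤ n) (𝓕 : Finset (Submodule F V)) :
    (Final.highPoints n k (𝓕 : Set (Submodule F V))).ncard = (high q n k 𝓕).card := by
  rw [highPoints_eq hC q n k hq hk hkn, Set.ncard_coe_finset]

end

lemma num_eq (F : Type) [Field F] [Fintype F] (q m : ℕ) (hq : Fintype.card F = q) :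
    (Final.num F m : ℝ) = br q m := by
  have hq2 : 2 ≤ q := by rw [← hq]; exact Fintype.one_lt_card
  unfold Final.num br
  rw [Nat.card_eq_fintype_card, hq, ← Nat.geomSum_eq hq2]
  push_cast
  rfl

/-- the upper bound for the final definitions -/
theorem final_upper (hCO : S_COUNT) (hRED : S_RED) (hC : S_REGC) (hD : S_REGD)
    (F : Type) [Field F] [Finite F] (n k : ℕ) (hk : 1000 ≤ k) (hn : 2 * k + 1 ≤ n)
    (V : Type) [AddCommGroup V] [Module F V] (hV : finrank F V = n)
    (𝓕 : Set (Submodule F V)) (h𝓕 : Final.IsIntersecting k 𝓕) :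
    (Final.highPoints n k 𝓕).ncard ≤ Final.num F (k + 1) := by
  have : Fintype F := Fintype.ofFinite F
  have : Module.Finite F V := Module.finite_of_finrank_pos (by omega)
  have : Finite V := Module.finite_of_finite F
  have hfin : 𝓕.Finite := Set.toFinite _
  have e : 𝓕 = (hfin.toFinset : Set (Submodule F V)) := by simp
  rw [e, ncard_highPoints hCO (Fintype.card F) n k rfl (by omega) (by omega)]
  have := upper hRED hC hD F V (Fintype.card F) n k rfl hV hn hk hfin.toFinset
    (fun A hA => by rw [mem_Gr]; exact h𝓕.1 A (by simpa using hA))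
    (fun A hA B hB => h𝓕.2 A (by simpa using hA) B (by simpa using hB))
  rw [← num_eq F (Fintype.card F) (k + 1) rfl] at this
  exact_mod_cast this

/-- the lower bound for the final definitions -/
theorem final_lower (hCO : S_COUNT) (hHM : S_HM)
    (F : Type) [Field F] [Finite F] (n k : ℕ) (hk : 4 ≤ k) (hn : 2 * k + 1 ≤ n)
    (V : Type) [AddCommGroup V] [Module F V] (hV : finrank F V = n) :
    ∃ 𝓕 : Set (Submodule F V), Final.IsIntersecting k 𝓕 ∧
      Final.num F (k + 1) ≤ (Final.highPoints n k 𝓕).ncard := by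
  have : Fintype F := Fintype.ofFinite F
  have : Module.Finite F V := Module.finite_of_finrank_pos (by omega)
  have : Finite V := Module.finite_of_finite F
  obtain ⟨𝓕, h1, h2, h3⟩ := hHM F V (Fintype.card F) n k rfl hV hn hk
  refine ⟨(𝓕 : Set (Submodule F V)), ⟨fun A hA => mem_Gr.1 (h1 hA), h2⟩, ?_⟩
  rw [ncard_highPoints hCO (Fintype.card F) n k rfl (by omega) (by omega)]
  rw [← num_eq F (Fintype.card F) (k + 1) rfl] at h3
  exact_mod_cast h3

/-- for `n = 2k` there is a family with more high points -/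
theorem final_2k (hCO : S_COUNT) (hHYP : S_HYP)
    (F : Type) [Field F] [Finite F] (k : ℕ) (hk : 4 ≤ k)
    (V : Type) [AddCommGroup V] [Module F V] (hV : finrank F V = 2 * k) :
    ∃ 𝓕 : Set (Submodule F V), Final.IsIntersecting k 𝓕 ∧
      Final.num F (k + 1) < (Final.highPoints (2 * k) k 𝓕).ncard := by
  have : Fintype F := Fintype.ofFinite F
  have : Module.Finite F V := Module.finite_of_finrank_pos (by omega)
  have : Finite V := Module.finite_of_finite F
  obtain ⟨𝓕, h1, h2, h3⟩ := hHYP F V (Fintype.card F) k rfl hV hk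
  refine ⟨(𝓕 : Set (Submodule F V)), ⟨fun A hA => mem_Gr.1 (h1 hA), h2⟩, ?_⟩
  rw [ncard_highPoints hCO (Fintype.card F) (2 * k) k rfl (by omega) (by omega)]
  rw [← num_eq F (Fintype.card F) (k + 1) rfl] at h3
  exact_mod_cast h3

end Pool.Agent.K1H42.HP
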